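import Pool.Agent.Helper37.ETC.Defs

/-!
ETC-F123 (helper88): the Frattini argument for pro-`p` groups, Schreier, finiteness of `H¹`.
-/

set_option autoImplicit false
set_option linter.unusedSectionVars false

namespace Pool.Helper37.ETC

open Module

/-- A nontrivial homomorphism to `ZMod p` vanishing on a proper subgroup of a finite `p`-group. -/
theorem exists_hom_of_ne_top {p : ℕ} [Fact p.Prime] {Q : Type*} [Group Q] [Finite Q]
    (hQ : IsPGroup p Q) (M : Subgroup Q) (hM : M ≠ ⊤) :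
    ∃ f : Q → ZMod p, (∀ a b, f (a * b) = f a + f b) ∧ (∃ a, f a ≠ 0) ∧ ∀ a ∈ M, f a = 0 := by
  obtain h | ⟨M', hM', hMM'⟩ := eq_top_or_exists_le_coatom M
  · exact absurd h hM
  have hnil : Group.IsNilpotent Q := hQ.isNilpotent
  have hnorm : M'.Normal :=
    Subgroup.NormalizerCondition.normal_of_coatom M' Group.normalizerCondition_of_isNilpotent hM'
  obtain ⟨q, hq⟩ : ∃ q : Q, q ∉ M' := by
    by_contra hcon
    push Not at hcon
    exact hM'.1 ((Subgroup.eq_top_iff' M').2 hcon)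
  have hsup : M' ⊔ Subgroup.zpowers q = ⊤ := by
    apply hM'.2
    refine lt_of_le_of_ne le_sup_left fun h => hq ?_
    rw [h]
    exact Subgroup.mem_sup_right (Subgroup.mem_zpowers q)
  have hcyc : IsCyclic (Q ⧸ M') := by
    refine ⟨(q : Q ⧸ M'), fun x => ?_⟩
    obtain ⟨x, rfl⟩ := QuotientGroup.mk_surjective x
    have hx : x ∈ M' ⊔ Subgroup.zpowers q := by rw [hsup]; trivial
    obtain ⟨y, hy, z, hz, rfl⟩ := Subgroup.mem_sup_of_normal_left.1 hx
    obtain ⟨k, rfl⟩ := Subgroup.mem_zpowers_iff.1 hz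
    refine ⟨k, ?_⟩
    show ((q : Q ⧸ M')) ^ k = ((y * q ^ k : Q) : Q ⧸ M')
    rw [QuotientGroup.mk_mul, (QuotientGroup.eq_one_iff y).2 hy, one_mul, QuotientGroup.mk_zpow]
  have hR : IsPGroup p (Q ⧸ M') := hQ.to_quotient M'
  have hdvd : p ∣ Nat.card (Q ⧸ M') := by
    rcases hR.card_eq_or_dvd with h | h
    · exfalso
      have hs : Subsingleton (Q ⧸ M') := (Nat.card_eq_one_iff_unique.1 h).1
      exact hq ((QuotientGroup.eq_one_iff q).1 (Subsingleton.elim _ _))
    · exact h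
  let e : Multiplicative (ZMod (Nat.card (Q ⧸ M'))) ≃* (Q ⧸ M') := zmodCyclicMulEquiv hcyc
  let g : ZMod (Nat.card (Q ⧸ M')) →+* ZMod p := ZMod.castHom hdvd (ZMod p)
  refine ⟨fun a => g (Multiplicative.toAdd (e.symm (a : Q ⧸ M'))), ?_, ?_, ?_⟩
  · intro a b
    show g (Multiplicative.toAdd (e.symm ((a * b : Q) : Q ⧸ M'))) = _
    rw [QuotientGroup.mk_mul, map_mul, toAdd_mul, map_add]
  · obtain ⟨a, ha⟩ := QuotientGroup.mk_surjective (e (Multiplicative.ofAdd 1))
    refine ⟨a, ?_⟩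
    show g (Multiplicative.toAdd (e.symm (a : Q ⧸ M'))) ≠ 0
    rw [ha, e.symm_apply_apply, toAdd_ofAdd, map_one]
    exact one_ne_zero
  · intro a ha
    show g (Multiplicative.toAdd (e.symm (a : Q ⧸ M'))) = 0
    rw [(QuotientGroup.eq_one_iff a).2 (hMM' ha), map_one, toAdd_one, map_zero]

/-- a function which is invariant under an open subgroup is locally constant -/
theorem isLocallyConstant_of_open {G : Type*} [Group G] [TopologicalSpace G]
    [IsTopologicalGroup G] {X : Type*} (f : G → X) (N : Subgroup G) (hN : IsOpen (N : Set G))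
    (h : ∀ σ, ∀ n ∈ N, f (σ * n) = f σ) : IsLocallyConstant f := by
  rw [IsLocallyConstant.iff_exists_open]
  intro σ
  refine ⟨(fun τ => σ⁻¹ * τ) ⁻¹' (N : Set G), hN.preimage (continuous_const_mul _), ?_, ?_⟩
  · show σ⁻¹ * σ ∈ N
    rw [inv_mul_cancel]
    exact N.one_mem
  · intro τ hτ
    have := h σ (σ⁻¹ * τ) hτ
    rwa [mul_inv_cancel_left] at this

/-- characters are determined on a dense subgroup -/
theorem ch_eq_of_dense {p : ℕ} {G : Type*} [Group G] [TopologicalSpace G] (S : Set G)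
    (hS : Dense ((Subgroup.closure S : Subgroup G) : Set G)) {χ ψ : G → ZMod p} (hχ : IsCh p χ)
    (hψ : IsCh p ψ) (h : ∀ s ∈ S, χ s = ψ s) : χ = ψ := by
  have hadd : ∀ f : G → ZMod p, IsCh p f → f 1 = 0 ∧ ∀ σ, f σ⁻¹ = - f σ := by
    intro f hf
    have h1 : f 1 = 0 := by
      have := hf.1 1 1
      rw [mul_one] at this
      exact left_eq_add.1 this
    refine ⟨h1, fun σ => ?_⟩
    have := hf.1 σ⁻¹ σ
    rw [inv_mul_cancel, h1] at this
    exact (neg_eq_of_add_eq_zero_left this.symm).symm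
  have hcl : ∀ σ ∈ Subgroup.closure S, χ σ = ψ σ := by
    intro σ hσ
    induction hσ using Subgroup.closure_induction with
    | mem x hx => exact h x hx
    | one => rw [(hadd χ hχ).1, (hadd ψ hψ).1]
    | mul x y _ _ hx hy => rw [hχ.1, hψ.1, hx, hy]
    | inv x _ hx => rw [(hadd χ hχ).2, (hadd ψ hψ).2, hx]
  have hclosed : IsClosed {σ : G | χ σ = ψ σ} := by
    have h1 : IsLocallyConstant fun σ : G => (χ σ, ψ σ) := hχ.2.prodMk hψ.2
    have h2 : {σ : G | χ σ = ψ σ} = (fun σ : G => (χ σ, ψ σ)) ⁻¹' {q | q.1 = q.2} := rfl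
    rw [h2]
    exact isOpen_compl_iff.1 (h1 {q | q.1 = q.2}ᶜ)
  funext σ
  have : σ ∈ closure ((Subgroup.closure S : Subgroup G) : Set G) := hS σ
  exact closure_minimal hcl hclosed this

theorem finite_of_dense {p : ℕ} [Fact p.Prime] {G : Type*} [Group G] [TopologicalSpace G]
    (S : Set G) (hfin : S.Finite)
    (hS : Dense ((Subgroup.closure S : Subgroup G) : Set G)) : FinH1 p G := by
  have : Finite S := hfin
  have : NeZero p := ⟨(Fact.out : p.Prime).ne_zero⟩
  refine Set.Finite.of_finite_image (f := fun χ : G → ZMod p => fun s : S => χ s)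
    (Set.toFinite _) ?_
  intro χ hχ ψ hψ h
  exact ch_eq_of_dense S hS hχ hψ fun s hs => congrFun h ⟨s, hs⟩

section Galois

variable {p : ℕ} [Fact p.Prime] {G K : Type*} [Group G] [TopologicalSpace G]
  [IsTopologicalGroup G] [CompactSpace G] [T2Space G] [TotallyDisconnectedSpace G] [Field K]
  [MulSemiringAction G K] {ζ : K}

/-- F1 (Frattini) -/
theorem exists_ch (hP : PP p G) (D : Subgroup G) (hD : IsClosed (D : Set G)) (h : D ≠ ⊤) :
    ∃ χ : G → ZMod p, IsCh p χ ∧ (∃ σ, χ σ ≠ 0) ∧ ∀ δ ∈ D, χ δ = 0 := by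
  obtain ⟨g, hg⟩ : ∃ g : G, g ∉ D := by
    by_contra hcon
    push Not at hcon
    exact h ((Subgroup.eq_top_iff' D).2 hcon)
  -- an open normal subgroup `N` with `g N ∩ D = ∅`
  obtain ⟨N, hN⟩ := ProfiniteGrp.exist_openNormalSubgroup_sub_open_nhds_of_one
    (U := (fun x : G => g * x) ⁻¹' (D : Set G)ᶜ)
    (hD.isOpen_compl.preimage (continuous_const_mul _)) (by simpa using hg)
  have hNo : IsOpen ((N : Subgroup G) : Set G) := N.isOpen
  have hfi : Finite (G ⧸ (N : Subgroup G)) :=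
    Subgroup.quotient_finite_of_isOpen _ hNo
  have hQ : IsPGroup p (G ⧸ (N : Subgroup G)) := by
    intro x
    obtain ⟨σ, rfl⟩ := QuotientGroup.mk_surjective x
    obtain ⟨k, hk⟩ := hP σ _ hNo
    exact ⟨k, (QuotientGroup.eq_one_iff _).2 hk⟩
  obtain ⟨f, hf1, ⟨a, ha⟩, hf2⟩ := exists_hom_of_ne_top hQ
    (D.map (QuotientGroup.mk' (N : Subgroup G))) (by
      intro htop
      have hmem : ((g : G) : G ⧸ (N : Subgroup G)) ∈
          D.map (QuotientGroup.mk' (N : Subgroup G)) := by rw [htop]; trivial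
      obtain ⟨d, hd, hdg⟩ := hmem
      have hdg' : g⁻¹ * d ∈ (N : Subgroup G) := QuotientGroup.eq.1 hdg.symm
      have := hN hdg'
      simp only [Set.mem_preimage, mul_inv_cancel_left, Set.mem_compl_iff] at this
      exact this hd)
  obtain ⟨a, rfl⟩ := QuotientGroup.mk_surjective a
  refine ⟨fun σ => f (σ : G ⧸ (N : Subgroup G)), ⟨fun σ τ => ?_, ?_⟩, ⟨a, ha⟩, fun δ hδ => ?_⟩
  · show f ((σ * τ : G) : G ⧸ (N : Subgroup G)) = _
    rw [QuotientGroup.mk_mul, hf1]
  · refine isLocallyConstant_of_open _ _ hNo fun σ n hn => ?_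
    show f ((σ * n : G) : G ⧸ (N : Subgroup G)) = _
    rw [QuotientGroup.mk_mul, (QuotientGroup.eq_one_iff n).2 hn, mul_one]
  · exact hf2 _ ⟨δ, hδ, rfl⟩

/-- F3 -/
theorem finH1_of_fg (S : Finset G) (hS : Dense ((Subgroup.closure (S : Set G) : Set G))) :
    FinH1 p G :=
  finite_of_dense (S : Set G) S.finite_toSet hS

/-- F2 (Schreier; uses F1) -/
theorem finH1_open (hP : PP p G) (hfin : FinH1 p G) (U : Subgroup G)
    (hU : IsOpen (U : Set G)) : FinH1 p U := by
  classical
  -- a finite set detecting all characters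
  let pick : (G → ZMod p) → G := fun χ => if h : ∃ σ, χ σ ≠ 0 then h.choose else 1
  let S : Set G := pick '' {χ | IsCh p χ}
  have hSfin : S.Finite := hfin.image pick
  let D : Subgroup G := (Subgroup.closure S).topologicalClosure
  have hDtop : D = ⊤ := by
    by_contra hne
    obtain ⟨χ, hχ, hne0, hχ0⟩ := exists_ch hP D (Subgroup.isClosed_topologicalClosure _) hne
    have h1 : pick χ ∈ D :=
      Subgroup.le_topologicalClosure _ (Subgroup.subset_closure ⟨χ, hχ, rfl⟩)
    have h2 : χ (pick χ) ≠ 0 := by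
      simp only [pick, dif_pos hne0]
      exact hne0.choose_spec
    exact h2 (hχ0 _ h1)
  have hdense : Dense ((Subgroup.closure S : Subgroup G) : Set G) := by
    intro x
    have : x ∈ D := by rw [hDtop]; trivial
    exact this
  -- Schreier
  let Γ : Subgroup G := Subgroup.closure S
  have hΓfg : Group.FG Γ := by
    rw [Group.fg_iff_subgroup_fg]
    exact ⟨hSfin.toFinset, by rw [Set.Finite.coe_toFinset]⟩
  have hUfi : U.FiniteIndex := by
    have : Finite (G ⧸ U) := Subgroup.quotient_finite_of_isOpen _ hU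
    exact Subgroup.finiteIndex_of_finite_quotient
  have hV : (U.subgroupOf Γ).FG :=
    (Group.fg_iff_subgroup_fg _).1 (Subgroup.fg_of_index_ne_zero _)
  obtain ⟨T, hT⟩ := hV
  -- the images in `U`
  let T' : Set U := {u | ∃ t ∈ T, ((t : Γ) : G) = (u : G)}
  have hT'fin : T'.Finite := by
    have : T' ⊆ (fun u : U => (u : G)) ⁻¹' ((fun t : Γ => (t : G)) '' (T : Set Γ)) := by
      rintro u ⟨t, ht, htu⟩
      exact ⟨t, ht, htu⟩
    exact ((T.finite_toSet.image _).preimage (Subtype.val_injective.injOn)).subset this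
  refine finite_of_dense T' hT'fin ?_
  have hmem : ∀ γ ∈ U.subgroupOf Γ, ∀ hγ : ((γ : Γ) : G) ∈ U,
      (⟨(γ : G), hγ⟩ : U) ∈ Subgroup.closure T' := by
    intro γ hγ
    rw [← hT] at hγ
    induction hγ using Subgroup.closure_induction with
    | mem x hx => exact fun hγ => Subgroup.subset_closure ⟨x, hx, rfl⟩
    | one => exact fun hγ => (Subgroup.closure T').one_mem
    | mul x y hx hy hx' hy' =>
      intro hγ
      have h1 : ((x : Γ) : G) ∈ U := by
        rw [hT] at hx; exact hx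
      have h2 : ((y : Γ) : G) ∈ U := by
        rw [hT] at hy; exact hy
      exact (Subgroup.closure T').mul_mem (hx' h1) (hy' h2)
    | inv x hx hx' =>
      intro hγ
      have h1 : ((x : Γ) : G) ∈ U := by
        rw [hT] at hx; exact hx
      exact (Subgroup.closure T').inv_mem (hx' h1)
  -- density
  rintro ⟨u, hu⟩
  rw [mem_closure_iff]
  intro W hW huW
  obtain ⟨W', hW', rfl⟩ := isOpen_induced_iff.1 hW
  obtain ⟨x, hxW, hxΓ⟩ := (mem_closure_iff.1 (hdense u)) (W' ∩ U) (hW'.inter hU) ⟨huW, hu⟩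
  refine ⟨⟨x, hxW.2⟩, hxW.1, hmem ⟨x, hxΓ⟩ ?_ hxW.2⟩
  exact hxW.2

end Galois

end Pool.Helper37.ETC
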